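import Pool.Agent.Helper54.CG.Goals

/-!
# MP_c70db9_ag, packet CG-FM3: the fibre over a point of `M`, part on `M`
-/

namespace Pool.Agent.Helper71.CG.FM3

open MvPolynomial Pool.Agent.Helper16.Cusp Pool.Agent.Helper54.CG

/-- three distinct roots -/
theorem three_roots (s : ℂ) (hs : s ≠ 0) (hs1 : s ^ 3 ≠ 1) :
    ∃ c : Fin 3 → ℂ, Function.Injective c ∧ ∀ i, 4 * s * c i ^ 3 - 3 * c i - s = 0 := by
  obtain ⟨r, hr⟩ : ∃ r : ℂ, 4 * s * r ^ 3 - 3 * r - s = 0 := by
    have hdeg : (Polynomial.C (4 * s) * Polynomial.X ^ 3 - Polynomial.C 3 * Polynomial.X -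
        Polynomial.C s : Polynomial ℂ).degree ≠ 0 := by
      have h4 : (4 * s : ℂ) ≠ 0 := mul_ne_zero (by norm_num) hs
      have : (Polynomial.C (4 * s) * Polynomial.X ^ 3 - Polynomial.C 3 * Polynomial.X -
        Polynomial.C s : Polynomial ℂ).degree = 3 := by
        compute_degree!
      rw [this]
      norm_num
    obtain ⟨r, hr⟩ := IsAlgClosed.exists_root _ hdeg
    refine ⟨r, ?_⟩
    simpa [Polynomial.IsRoot.def] using hr
  obtain ⟨d, hd⟩ := IsAlgClosed.exists_pow_nat_eq (3 / s - 3 * r ^ 2) (n := 2) (by norm_num)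
  have hd' : s * d ^ 2 = 3 - 3 * s * r ^ 2 := by
    rw [hd]
    field_simp
  have hd0 : d ≠ 0 := by
    rintro rfl
    apply hs1
    have h1 : s * r ^ 2 = 1 := by
      linear_combination (1 / 3 : ℂ) * hd'
    have h2 : r = s := by
      linear_combination hr - 4 * r * h1
    rw [h2] at h1
    linear_combination h1
  have hne : ∀ e : ℂ, e ^ 2 = d ^ 2 → (-r + e) / 2 ≠ r := by
    intro e he h
    apply hs1
    have h3 : e = 3 * r := by linear_combination 2 * h
    have h4 : 4 * (s * r ^ 2) = 1 := by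
      rw [h3] at he
      linear_combination (1 / 3 : ℂ) * s * he + (1 / 3 : ℂ) * hd'
    have h5 : s = -2 * r := by
      linear_combination r * h4 - hr
    rw [h5] at h4 ⊢
    linear_combination h4
  have hroot : ∀ e : ℂ, e ^ 2 = d ^ 2 →
      4 * s * ((-r + e) / 2) ^ 3 - 3 * ((-r + e) / 2) - s = 0 := by
    intro e he
    have he' : s * e ^ 2 = 3 - 3 * s * r ^ 2 := by rw [he]; exact hd'
    linear_combination hr + ((-3 * r + e) / 2) * he'
  refine ⟨![r, (-r + d) / 2, (-r + -d) / 2], ?_, ?_⟩
  · have n1 := hne d rfl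
    have n2 := hne (-d) (by ring)
    have n3 : (-r + d) / 2 ≠ (-r + -d) / 2 := by
      intro h
      apply hd0
      linear_combination h
    intro i j hij
    fin_cases i <;> fin_cases j
    · rfl
    · exact absurd hij.symm n1
    · exact absurd hij.symm n2
    · exact absurd hij n1
    · rfl
    · exact absurd hij n3
    · exact absurd hij n2
    · exact absurd hij.symm n3
    · rfl
  · intro i
    fin_cases i
    · exact hr
    · exact hroot d rfl
    · exact hroot (-d) (by ring)

theorem t : G_FM3 := by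
  intro s hs hs1 hs8
  obtain ⟨c, hc, hroot⟩ := three_roots s hs hs1
  refine ⟨c, hc, fun i => ?_⟩
  have h := hroot i
  generalize c i = r at h
  have hr : r ≠ 0 := by
    rintro rfl
    apply hs
    linear_combination -h
  have h4 : 4 * r ^ 3 - 1 ≠ 0 := by
    intro h4
    apply hr
    linear_combination (1 / 3 : ℂ) * s * h4 - (1 / 3 : ℂ) * h
  have hsr : s = 3 * r / (4 * r ^ 3 - 1) := by
    rw [eq_div_iff h4]
    linear_combination h
  have hr1 : r ^ 3 ≠ 1 := by
    intro h1
    apply hs1
    have : s = r := by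
      rw [hsr, h1]
      ring
    rw [this, h1]
  have hr8 : 8 * r ^ 3 ≠ -1 := by
    intro h1
    apply hs1
    have : s = -2 * r := by
      rw [hsr]
      have : 4 * r ^ 3 - 1 = -3 / 2 := by linear_combination (1 / 2 : ℂ) * h1
      rw [this]
      ring
    rw [this]
    linear_combination -h1
  refine ⟨hr, hr1, hr8, ?_, 9 * ((1 - 4 * r ^ 3) / r ^ 4), ?_, ?_⟩
  · have : eval (pt r) pR = 9 * (1 + 8 * r ^ 3) ^ 3 / r ^ 8 := by
      simp only [pR, pt, map_mul, map_add, map_sub, map_pow, eval_X, Matrix.cons_val_zero,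
        Matrix.cons_val_one, Matrix.cons_val, map_ofNat]
      field_simp
      ring
    rw [this]
    refine div_ne_zero (mul_ne_zero (by norm_num) (pow_ne_zero _ ?_)) (pow_ne_zero _ hr)
    intro h0
    apply hr8
    linear_combination h0
  · refine mul_ne_zero (by norm_num) (div_ne_zero ?_ (pow_ne_zero _ hr))
    intro h0
    apply h4
    linear_combination -h0
  · have h4' : 1 - 4 * r ^ 3 ≠ 0 := fun h0 => h4 (by linear_combination -h0)
    obtain ⟨k, hk⟩ : ∃ k : ℂ, k = 4 * r ^ 3 - 1 := ⟨_, rfl⟩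
    rw [← hk] at hsr h4
    funext j
    fin_cases j
    · change eval (pt r) pA = 9 * ((1 - 4 * r ^ 3) / r ^ 4) * (2 * s + 1 / s ^ 2)
      simp only [pA, pt, map_mul, map_add, map_sub, map_pow, eval_X,
        Matrix.cons_val_zero, Matrix.cons_val_one, Matrix.cons_val, map_ofNat]
      rw [hsr]
      field_simp
      rw [hk]
      ring
    · change eval (pt r) pB = (9 * ((1 - 4 * r ^ 3) / r ^ 4)) ^ 2 * (s ^ 2 + 2 / s)
      simp only [pB, pt, map_mul, map_add, map_sub, map_pow, eval_X, map_neg,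
        Matrix.cons_val_zero, Matrix.cons_val_one, Matrix.cons_val, map_ofNat]
      rw [hsr]
      field_simp
      rw [hk]
      ring
    · change eval (pt r) pC = 9 * ((1 - 4 * r ^ 3) / r ^ 4) * 1
      simp only [pC, pt, map_mul, map_sub, map_pow, eval_X,
        Matrix.cons_val_zero, Matrix.cons_val_one, Matrix.cons_val, map_ofNat]
      field_simp
      ring

end Pool.Agent.Helper71.CG.FM3
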